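import Mathlib
import Pool.Agent.H24.WdDefs
import Pool.Agent.H24.Wd2

namespace Pool.Agent.Results.MP_3a8b9a_co.No
open Pool.Agent.H24.WdDefs

theorem result : ∃ (E : Fin 4 → Fin 4 → Prop) (T : SimpleGraph (Fin 3))
    (bag : Fin 3 → Finset (Fin 4 ⊕ Fin 4)),
    Conn E ∧ (∃ a b, E a b) ∧ Reflective E T bag ∧ (∀ t, IsCore E ∅ (bag t) ∅) ∧
    (∀ t C, IsCore E ∅ (bag t) C → ∀ s s', T.Adj s s' →
      WeakDom (ind E C) (ind E (bag s ∩ bag s'))) ∧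
    ∃ 𝒱 : Finset (Fin 3), 𝒱.Nonempty ∧ ¬ WeakDom E (ind E (𝒱.biUnion bag)) :=
  ⟨Pool.Agent.H24.Wd2.E, Pool.Agent.H24.Wd2.T, Pool.Agent.H24.Wd2.bag, Pool.Agent.H24.Wd2.conn,
    ⟨0, 0, by decide⟩, Pool.Agent.H24.Wd2.refl, Pool.Agent.H24.Wd2.core0, Pool.Agent.H24.Wd2.hyp,
    {0, 1}, by simp, Pool.Agent.H24.Wd2.not_dom⟩

end Pool.Agent.Results.MP_3a8b9a_co.No
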